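import Mathlib
import Pool.Agent.H.MP_906def_an.A

set_option autoImplicit false

namespace Pool.Agent.H.MP_c785a0_an

open Set Metric Filter Topology MeasureTheory
open scoped ENNReal NNReal

def cp {ι : Type} (s : ι → ℂ → ℂ) (l : List ι) : ℂ → ℂ := l.foldr (fun i h => s i ∘ h) id

def wd {ι : Type} (s : ι → ℂ → ℂ) {N : ℕ} (ω : Fin N → ι) : ℂ → ℂ := cp s (List.ofFn ω)

def J {ι : Type} (s : ι → ℂ → ℂ) : Set ℂ :=
  ⋃ ω : ℕ → ι, ⋂ N : ℕ, wd s (fun k : Fin N => ω k) '' closedBall 0 1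

def Ext {ι : Type} (s : ι → ℂ → ℂ) (V : Set ℂ) : Prop :=
  IsOpen V ∧ IsConnected V ∧ closedBall 0 1 ⊆ V ∧
    (∀ i, DifferentiableOn ℂ (s i) V ∧ InjOn (s i) V ∧ MapsTo (s i) V V) ∧
    ∃ K : ℝ, 1 ≤ K ∧ ∀ l : List ι, ∀ x ∈ V, ∀ y ∈ V, ‖deriv (cp s l) y‖ ≤ K * ‖deriv (cp s l) x‖

def CIFS {ι : Type} (s : ι → ℂ → ℂ) : Prop :=
  (∀ i, MapsTo (s i) (closedBall 0 1) (closedBall 0 1) ∧ InjOn (s i) (closedBall 0 1)) ∧
    (∃ L : ℝ≥0, L < 1 ∧ ∀ i, LipschitzOnWith L (s i) (closedBall 0 1)) ∧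
    (∀ i j, i ≠ j → Disjoint (s i '' ball 0 1) (s j '' ball 0 1)) ∧ ∃ V, Ext s V

noncomputable def S (h : ℂ → ℂ) : ℝ≥0∞ := ⨆ x ∈ closedBall (0 : ℂ) 1, ‖deriv h x‖ₑ

noncomputable def Z {ι : Type} (s : ι → ℂ → ℂ) (N : ℕ) (t : ℝ) : ℝ≥0∞ :=
  ∑' ω : Fin N → ι, S (wd s ω) ^ t

def Regular {ι : Type} (s : ι → ℂ → ℂ) : Prop :=
  ∃ t : ℝ, 0 ≤ t ∧ (∀ N, 0 < Z s N t ∧ Z s N t < ⊤) ∧
    Tendsto (fun N : ℕ => Real.log (Z s N t).toReal / N) atTop (𝓝 0)

variable {ι : Type} {s : ι → ℂ → ℂ}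

theorem cp_cons (i : ι) (l : List ι) : cp s (i :: l) = s i ∘ cp s l := rfl

theorem cp_append (a b : List ι) : cp s (a ++ b) = cp s a ∘ cp s b := by
  induction a with
  | nil => rfl
  | cons i a ih => rw [List.cons_append, cp_cons, cp_cons, ih]; rfl

theorem cp_maps {V : Set ℂ} (h : ∀ i, MapsTo (s i) V V) (l : List ι) : MapsTo (cp s l) V V := by
  induction l with
  | nil => exact mapsTo_id _
  | cons i a ih => exact (h i).comp ih

theorem cp_diff {V : Set ℂ} (h : ∀ i, DifferentiableOn ℂ (s i) V ∧ InjOn (s i) V ∧ MapsTo (s i) V V)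
    (l : List ι) : DifferentiableOn ℂ (cp s l) V := by
  induction l with
  | nil => exact differentiableOn_id
  | cons i a ih => exact (h i).1.comp ih (cp_maps (fun i => (h i).2.2) a)

theorem memJ {T : Type} (σ : T → T) (c : T → ι) (z : T → ℂ) (hz : ∀ t, z t ∈ closedBall (0 : ℂ) 1)
    (h : ∀ t, z t = s (c t) (z (σ t))) (t : T) : z t ∈ J s := by
  refine mem_iUnion.2 ⟨fun n => c (σ^[n] t), mem_iInter.2 fun N => ?_⟩
  induction N generalizing t with
  | zero => exact ⟨z t, hz t, rfl⟩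
  | succ N ih =>
    obtain ⟨y, hy, e⟩ := ih (σ t)
    refine ⟨y, hy, ?_⟩
    rw [h t, ← e]
    simp only [wd, List.ofFn_succ, cp_cons, Function.comp, Fin.val_zero, Function.iterate_zero, id,
      Fin.val_succ, Function.iterate_succ]

theorem upper [Countable ι] (r : ι → ℝ≥0) (L : ℝ≥0) (hL : L < 1) (hr : ∀ i, r i ≤ L)
    (hm : ∀ i, MapsTo (s i) (closedBall 0 1) (closedBall 0 1))
    (hl : ∀ i, LipschitzOnWith (r i) (s i) (closedBall 0 1)) (t : ℝ≥0)
    (hF : ∑' i, (r i : ℝ≥0∞) ^ (t : ℝ) ≤ 1) : dimH (J s) ≤ t := by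
  have hc : ∀ l : List ι, LipschitzOnWith (l.map r).prod (cp s l) (closedBall 0 1) := by
    intro l
    induction l with
    | nil => exact (LipschitzWith.id (α := ℂ)).lipschitzOnWith
    | cons i a ih => exact (hl i).comp ih (cp_maps hm a)
  have hd : ∀ n (w : Fin n → ι), ediam (wd s w '' closedBall 0 1) ≤ (∏ i, (r (w i) : ℝ≥0∞)) * 2 := by
    intro n w
    refine ediam_le ?_
    rintro _ ⟨x, hx, rfl⟩ _ ⟨y, hy, rfl⟩
    refine (hc _ hx hy).trans ?_
    rw [List.map_ofFn, List.prod_ofFn]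
    push_cast
    gcongr
    · rfl
    · rw [edist_dist]
      have := dist_triangle_right x y 0
      rw [mem_closedBall] at hx hy
      exact (ENNReal.ofReal_le_ofReal (by linarith : dist x y ≤ 2)).trans (by simp)
  have h1 := Measure.hausdorffMeasure_le_liminf_tsum (t : ℝ) (J s) (l := atTop)
    (fun n : ℕ => (L : ℝ≥0∞) ^ n * 2)
    (by
      have := ENNReal.Tendsto.mul_const (b := 2) (ENNReal.tendsto_pow_atTop_nhds_zero_of_lt_one
        (r := L) (by exact_mod_cast hL)) (Or.inr (by simp))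
      simpa using this)
    (fun n (w : Fin n → ι) => wd s w '' closedBall 0 1)
    (Eventually.of_forall (fun n w => (hd n w).trans (by
      gcongr
      have := Finset.prod_le_prod' (s := Finset.univ) (f := fun i : Fin n => (r (w i) : ℝ≥0∞))
        (g := fun _ => (L : ℝ≥0∞)) (fun i _ => by exact_mod_cast hr _)
      simpa using this)))
    (Eventually.of_forall (fun n x hx => by
      obtain ⟨ω, hω⟩ := mem_iUnion.1 hx
      exact mem_iUnion.2 ⟨fun i => ω i, mem_iInter.1 hω n⟩))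
  have h2 : ∀ n, ∑' w : Fin n → ι, ediam (wd s w '' closedBall 0 1) ^ (t : ℝ) ≤ 2 ^ (t : ℝ) := by
    intro n
    calc _ ≤ ∑' w : Fin n → ι, (∏ i, (r (w i) : ℝ≥0∞) ^ (t : ℝ)) * 2 ^ (t : ℝ) := by
          refine ENNReal.tsum_le_tsum (fun w => ?_)
          refine (ENNReal.rpow_le_rpow (hd n w) t.coe_nonneg).trans (le_of_eq ?_)
          rw [ENNReal.mul_rpow_of_nonneg _ _ t.coe_nonneg,
            ENNReal.prod_rpow_of_nonneg t.coe_nonneg]
      _ = (∑' e, (r e : ℝ≥0∞) ^ (t : ℝ)) ^ n * 2 ^ (t : ℝ) := by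
          rw [ENNReal.tsum_mul_right,
            MP_906def_an.tsum_fun_pow (fun e => (r e : ℝ≥0∞) ^ (t : ℝ)) n]
      _ ≤ _ := by
          have : (∑' e, (r e : ℝ≥0∞) ^ (t : ℝ)) ^ n ≤ 1 := pow_le_one₀ (by positivity) hF
          simpa using mul_le_mul_left this (2 ^ (t : ℝ))
  have h3 := h1.trans (liminf_le_of_frequently_le' (Frequently.of_forall h2))
  exact dimH_le_of_hausdorffMeasure_ne_top (ne_top_of_le_ne_top
    (ENNReal.rpow_ne_top_of_nonneg t.coe_nonneg (by simp)) h3)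

theorem fix {T : Type} (σ : T → T) (φ : T → ℝ → ℝ) (L : ℝ) (hL : L < 1) (hL0 : 0 ≤ L)
    (hm : ∀ t, MapsTo (φ t) (Icc 0 1) (Icc 0 1))
    (hl : ∀ t, ∀ x ∈ Icc (0 : ℝ) 1, ∀ y ∈ Icc (0 : ℝ) 1, |φ t x - φ t y| ≤ L * |x - y|) :
    ∃ u : T → ℝ, (∀ t, u t ∈ Icc (0 : ℝ) 1) ∧ ∀ t, u t = φ t (u (σ t)) := by
  obtain ⟨v, hv0, hv⟩ : ∃ v : ℕ → T → ℝ, (∀ t, v 0 t = 0) ∧
      ∀ n t, v (n + 1) t = φ t (v n (σ t)) :=
    ⟨fun n => Nat.rec (fun _ => 0) (fun _ w t => φ t (w (σ t))) n, fun _ => rfl, fun _ _ => rfl⟩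
  have h1 : ∀ n t, v n t ∈ Icc (0 : ℝ) 1 := by
    intro n
    induction n with
    | zero => intro t; simp [hv0]
    | succ n ih => intro t; rw [hv]; exact hm t (ih _)
  have h2 : ∀ n t, dist (v n t) (v (n + 1) t) ≤ 1 * L ^ n := by
    intro n
    induction n with
    | zero =>
      intro t
      have a := h1 0 t
      have b := h1 1 t
      rw [Real.dist_eq, abs_le]; constructor <;> simp <;> linarith [a.1, a.2, b.1, b.2]
    | succ n ih =>
      intro t
      rw [hv, hv (n + 1), Real.dist_eq]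
      refine (hl t _ (h1 _ _) _ (h1 _ _)).trans ?_
      have := ih (σ t)
      rw [Real.dist_eq] at this
      rw [pow_succ]; nlinarith
  have h3 : ∀ t, ∃ x, Tendsto (fun n => v n t) atTop (𝓝 x) := fun t =>
    cauchySeq_tendsto_of_complete (cauchySeq_of_le_geometric L 1 hL (fun n => h2 n t))
  choose u hu using h3
  have h4 : ∀ t, u t ∈ Icc (0 : ℝ) 1 := fun t =>
    isClosed_Icc.mem_of_tendsto (hu t) (Eventually.of_forall fun n => h1 n t)
  refine ⟨u, h4, fun t => ?_⟩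
  refine tendsto_nhds_unique ((tendsto_add_atTop_iff_nat 1).2 (hu t)) ?_
  rw [tendsto_iff_dist_tendsto_zero]
  have := (tendsto_iff_dist_tendsto_zero.1 (hu (σ t))).const_mul L
  rw [mul_zero] at this
  simp only [hv]
  exact squeeze_zero (fun _ => dist_nonneg) (fun n => hl t _ (h1 _ _) _ (h4 _)) this

theorem moran {F : Type} [Fintype F] (r : F → ℝ) (hr : ∀ e, 0 < r e ∧ r e ≤ 1 / 4)
    (π : (ℕ → F) → ℂ) (δ : ℝ) (hδ : 0 < δ)
    (hπ : ∀ k ω τ, (∀ i < k, ω i = τ i) → ω k ≠ τ k →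
      δ * ∏ i ∈ Finset.range k, r (τ i) ≤ dist (π ω) (π τ))
    {s : ℝ} (hs : 0 < s) (hF : 1 ≤ ∑ e, r e ^ s) (E : Set ℂ) (hE : ∀ ω, π ω ∈ E) :
    ENNReal.ofReal s ≤ dimH E := by
  classical
  set Z := ∑ e, r e ^ s with hZ
  have hZ0 : 0 < Z := by linarith
  have hrs : ∀ e, 0 ≤ r e ^ s := fun e => Real.rpow_nonneg (hr e).1.le _
  let _ : MeasurableSpace F := ⊤
  set p : PMF F := PMF.ofFintype (fun e => ENNReal.ofReal (r e ^ s / Z)) (by
    rw [← ENNReal.ofReal_sum_of_nonneg (fun e _ => div_nonneg (hrs _) hZ0.le), ← Finset.sum_div,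
      ← hZ, div_self hZ0.ne', ENNReal.ofReal_one]) with hp
  set μ : Measure (ℕ → F) := Measure.infinitePi (fun _ : ℕ => p.toMeasure) with hμ
  have hR : ∀ (τ : ℕ → F) (k : ℕ), 0 < ∏ i ∈ Finset.range k, r (τ i) := fun τ k =>
    Finset.prod_pos fun i _ => (hr _).1
  have hcyl : ∀ (τ : ℕ → F) (k : ℕ), μ {ω | ∀ i < k, ω i = τ i} ≤
      ENNReal.ofReal ((∏ i ∈ Finset.range k, r (τ i)) ^ s) := by
    intro τ k
    have : {ω : ℕ → F | ∀ i < k, ω i = τ i} = Set.pi (Finset.range k) (fun i => {τ i}) := by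
      ext ω; simp
    rw [this, hμ, Measure.infinitePi_pi _ (t := fun i => {τ i}) (fun i _ => trivial),
      ← Real.finsetProd_rpow _ _ (fun i _ => (hr _).1.le),
      ENNReal.ofReal_prod_of_nonneg (fun i _ => hrs _)]
    refine Finset.prod_le_prod' (fun i _ => ?_)
    rw [PMF.toMeasure_apply_singleton p (τ i) MeasurableSpace.measurableSet_top, hp,
      PMF.ofFintype_apply]
    exact ENNReal.ofReal_le_ofReal (div_le_self (hrs _) hF)
  have key : ∀ U : Set ℂ, ENNReal.ofReal (δ ^ s) * μ (π ⁻¹' U) ≤ Metric.ediam U ^ s := by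
    intro U
    rcases (π ⁻¹' U).eq_empty_or_nonempty with he | ⟨τ, hτ⟩
    · rw [he]; simp
    by_cases hall : ∃ k, ∃ ω ∈ π ⁻¹' U, ω k ≠ τ k
    · obtain ⟨ω, hω, hne⟩ := Nat.find_spec hall
      set k := Nat.find hall with hk
      have hsub : π ⁻¹' U ⊆ {ω | ∀ i < k, ω i = τ i} := by
        intro ω' hω' i hi
        by_contra hc
        exact Nat.find_min hall hi ⟨ω', hω', hc⟩
      have hdist := hπ k ω τ (hsub hω) hne
      have := hR τ k
      calc ENNReal.ofReal (δ ^ s) * μ (π ⁻¹' U)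
          ≤ ENNReal.ofReal (δ ^ s) * ENNReal.ofReal ((∏ i ∈ Finset.range k, r (τ i)) ^ s) :=
            mul_le_mul_right ((measure_mono hsub).trans (hcyl τ k)) _
        _ = ENNReal.ofReal (δ * ∏ i ∈ Finset.range k, r (τ i)) ^ s := by
            rw [← ENNReal.ofReal_mul (Real.rpow_nonneg hδ.le _), ← Real.mul_rpow hδ.le this.le,
              ENNReal.ofReal_rpow_of_nonneg (by positivity) hs.le]
        _ ≤ _ := by
            refine ENNReal.rpow_le_rpow ?_ hs.le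
            refine le_trans ?_ (Metric.edist_le_ediam_of_mem hω hτ)
            rw [edist_dist]; exact ENNReal.ofReal_le_ofReal hdist
    · push Not at hall
      have h0 : μ (π ⁻¹' U) = 0 := by
        have hl : Tendsto (fun k : ℕ => ENNReal.ofReal (((1 / 4 : ℝ) ^ s) ^ k)) atTop (𝓝 0) := by
          rw [← ENNReal.ofReal_zero]
          exact ENNReal.tendsto_ofReal (tendsto_pow_atTop_nhds_zero_of_lt_one (by positivity)
            (Real.rpow_lt_one (by norm_num) (by norm_num) hs))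
        refine le_antisymm (ge_of_tendsto hl (Eventually.of_forall (fun k => ?_))) (by positivity)
        have hsub : π ⁻¹' U ⊆ {ω | ∀ i < k, ω i = τ i} := fun ω hω i _ => hall i ω hω
        refine (measure_mono hsub).trans ((hcyl τ k).trans ?_)
        refine ENNReal.ofReal_le_ofReal ?_
        rw [← Real.rpow_natCast, ← Real.rpow_mul (by norm_num), mul_comm,
          Real.rpow_mul (by norm_num), Real.rpow_natCast]
        refine Real.rpow_le_rpow (hR _ _).le ?_ hs.le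
        have := Finset.prod_le_prod (s := Finset.range k) (f := fun i => r (τ i))
          (g := fun _ => 1 / 4) (fun i _ => (hr _).1.le) (fun i _ => (hr _).2)
        simpa using this
      rw [h0]; simp
  have hle := OuterMeasure.le_mkMetric (fun d => d ^ s)
    (ENNReal.ofReal (δ ^ s) • OuterMeasure.map π μ.toOuterMeasure) 1 one_pos (fun U _ => key U)
  have h2 := hle E
  rw [OuterMeasure.coe_mkMetric] at h2
  have h3 : π ⁻¹' E = univ := eq_univ_of_forall hE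
  have h4 : (ENNReal.ofReal (δ ^ s) • OuterMeasure.map π μ.toOuterMeasure) E =
      ENNReal.ofReal (δ ^ s) := by
    rw [smul_apply, OuterMeasure.map_apply, h3]
    simp
  rw [h4] at h2
  have h5 : Measure.hausdorffMeasure s E ≠ 0 :=
    ne_of_gt (lt_of_lt_of_le (ENNReal.ofReal_pos.2 (Real.rpow_pos_of_pos hδ _)) h2)
  lift s to NNReal using hs.le
  rw [ENNReal.ofReal_coe_nnreal]
  exact le_dimH_of_hausdorffMeasure_ne_zero h5

end Pool.Agent.H.MP_c785a0_an
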