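import Pool.Agent.H.MP_c785a0_an.A

set_option autoImplicit false

namespace Pool.Agent.H.MP_c785a0_an

open Set Metric Filter Topology MeasureTheory
open scoped ENNReal NNReal

variable {ι : Type} {s : ι → ℂ → ℂ}

theorem le_S (h : ℂ → ℂ) {x : ℂ} (hx : x ∈ closedBall (0 : ℂ) 1) : ‖deriv h x‖ₑ ≤ S h :=
  le_iSup₂_of_le (f := fun x (_ : x ∈ closedBall (0 : ℂ) 1) => ‖deriv h x‖ₑ) x hx le_rfl

theorem S_id : S (cp s []) = 1 := by
  refine le_antisymm (iSup₂_le fun x _ => ?_) ((le_of_eq ?_).trans (le_S _ (x := 0) (by simp)))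
  · show ‖deriv id x‖ₑ ≤ 1
    simp
  · show 1 = ‖deriv id 0‖ₑ
    simp

theorem Z_zero (t : ℝ) : Z s 0 t = 1 := by
  simp [Z, wd, S_id]

theorem Z_add (N M : ℕ) (t : ℝ) :
    Z s (N + M) t = ∑' a : Fin N → ι, ∑' b : Fin M → ι, S (wd s a ∘ wd s b) ^ t := by
  rw [Z, ← (Fin.appendEquiv N M).tsum_eq, ENNReal.tsum_prod']
  refine tsum_congr fun a => tsum_congr fun b => ?_
  rw [wd, wd, wd, ← cp_append, ← List.ofFn_fin_append]
  rfl

theorem regular (hC : CIFS s) (L : ℝ≥0) (hL : L < 1) (hS : ∀ i, S (s i) ≤ L)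
    (i0 i1 : ι) (hi : i0 ≠ i1) (m : ℝ≥0) (hm : 0 < m) (h0 : m ≤ S (s i0)) (h1 : m ≤ S (s i1))
    (hfin : ∀ t : ℝ, 0 < t → ∑' i, S (s i) ^ t ≠ ⊤) : Regular s := by
  classical
  obtain ⟨hX, -, -, V, hV, -, hXV, hd, K, hK, hdist⟩ := hC
  lift K to ℝ≥0 using (by linarith)
  have hK1 : (1 : ℝ≥0∞) ≤ K := by exact_mod_cast hK
  have chain : ∀ a b : List ι, ∀ x ∈ closedBall (0 : ℂ) 1,
      ‖deriv (cp s a ∘ cp s b) x‖ₑ = ‖deriv (cp s a) (cp s b x)‖ₑ * ‖deriv (cp s b) x‖ₑ := by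
    intro a b x hx
    rw [deriv_comp x ((cp_diff hd a).differentiableAt (hV.mem_nhds
      (cp_maps (fun i => (hd i).2.2) b (hXV hx)))) ((cp_diff hd b).differentiableAt
      (hV.mem_nhds (hXV hx))), enorm_mul]
  have sub : ∀ a b : List ι, S (cp s a ∘ cp s b) ≤ S (cp s a) * S (cp s b) := by
    intro a b
    refine iSup₂_le fun x hx => ?_
    rw [chain a b x hx]
    exact mul_le_mul' (le_S _ (cp_maps (fun i => (hX i).1) b hx)) (le_S _ hx)
  have sup : ∀ a b : List ι, S (cp s a) * S (cp s b) ≤ K * S (cp s a ∘ cp s b) := by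
    intro a b
    have e : ∀ x ∈ closedBall (0 : ℂ) 1, S (cp s a) ≤ K * ‖deriv (cp s a) (cp s b x)‖ₑ := by
      intro x hx
      refine iSup₂_le fun y hy => ?_
      have := hdist a _ (cp_maps (fun i => (hd i).2.2) b (hXV hx)) y (hXV hy)
      rw [enorm_eq_nnnorm, enorm_eq_nnnorm]
      exact_mod_cast this
    conv_lhs => rw [S.eq_def (cp s b)]
    simp only [ENNReal.mul_iSup]
    refine iSup₂_le fun x hx => (mul_le_mul_left (e x hx) _).trans ?_
    rw [mul_assoc, ← chain a b x hx]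
    exact mul_le_mul_right (le_S _ hx) _
  have Zsub : ∀ N M t, 0 ≤ t → Z s (N + M) t ≤ Z s N t * Z s M t := by
    intro N M t ht
    rw [Z_add, Z, Z, ← ENNReal.tsum_mul_right]
    refine ENNReal.tsum_le_tsum fun a => ?_
    rw [← ENNReal.tsum_mul_left]
    refine ENNReal.tsum_le_tsum fun b => ?_
    rw [← ENNReal.mul_rpow_of_nonneg _ _ ht]
    exact ENNReal.rpow_le_rpow (sub _ _) ht
  have Zsup : ∀ N M t, 0 ≤ t → Z s N t * Z s M t ≤ K ^ t * Z s (N + M) t := by
    intro N M t ht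
    rw [Z_add, Z, Z, ← ENNReal.tsum_mul_right, ← ENNReal.tsum_mul_left]
    refine ENNReal.tsum_le_tsum fun a => ?_
    rw [← ENNReal.tsum_mul_left, ← ENNReal.tsum_mul_left]
    refine ENNReal.tsum_le_tsum fun b => ?_
    rw [← ENNReal.mul_rpow_of_nonneg _ _ ht, ← ENNReal.mul_rpow_of_nonneg _ _ ht]
    exact ENNReal.rpow_le_rpow (sup _ _) ht
  have Zp : ∀ N M t, 0 ≤ t → Z s (N * M) t ≤ Z s N t ^ M := by
    intro N M t ht
    induction M with
    | zero => simp [Z_zero]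
    | succ M ih =>
      rw [Nat.mul_succ, pow_succ]
      exact (Zsub _ _ t ht).trans (mul_le_mul_left ih _)
  have Zq : ∀ N M t, 0 ≤ t → Z s N t ^ M ≤ (K ^ t) ^ M * Z s (M * N) t := by
    intro N M t ht
    induction M with
    | zero => simp [Z_zero]
    | succ M ih =>
      rw [Nat.succ_mul, pow_succ, pow_succ, mul_assoc]
      refine (mul_le_mul_left ih _).trans ?_
      rw [mul_assoc]
      exact mul_le_mul_right (Zsup _ _ t ht) _
  have Z1 : ∀ t, Z s 1 t = ∑' i, S (s i) ^ t := by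
    intro t
    rw [Z, ← (Equiv.funUnique (Fin 1) ι).symm.tsum_eq]
    simp [wd, cp]
  have Zfin : ∀ N t, 0 < t → Z s N t ≠ ⊤ := by
    intro N t ht
    have := Zp 1 N t ht.le
    rw [one_mul, Z1] at this
    exact ne_top_of_le_ne_top (ENNReal.pow_ne_top (hfin t ht)) this
  have S1 : ∀ l : List ι, S (cp s l) ≤ 1 := by
    intro l
    induction l with
    | nil => exact S_id.le
    | cons i a ih =>
      refine (sub [i] a).trans (mul_le_one' ((hS i).trans ?_) ih)
      exact_mod_cast hL.le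
  obtain ⟨t0, ht0, hB⟩ : ∃ t : ℝ, 0 < t ∧ (K : ℝ≥0∞) ^ t < Z s 1 t := by
    have hc : ContinuousAt (fun t : ℝ => ((K : ℝ) / m) ^ t) 0 :=
      (Real.continuous_const_rpow (by positivity)).continuousAt
    have := hc.eventually_lt (continuousAt_const (y := (2 : ℝ))) (by simp)
    obtain ⟨t, h2, ht⟩ := ((this.filter_mono (nhdsWithin_le_nhds (s := Ioi 0))).and
      self_mem_nhdsWithin).exists
    have ht : 0 < t := ht
    refine ⟨t, ht, ?_⟩
    rw [Z1]
    refine lt_of_lt_of_le ?_ (ENNReal.sum_le_tsum {i0, i1})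
    rw [Finset.sum_pair hi]
    refine lt_of_lt_of_le ?_ (add_le_add (ENNReal.rpow_le_rpow h0 ht.le)
      (ENNReal.rpow_le_rpow h1 ht.le))
    rw [Real.div_rpow (by positivity) (by positivity), div_lt_iff₀ (by positivity)] at h2
    rw [← ENNReal.coe_rpow_of_nonneg _ ht.le, ← ENNReal.coe_rpow_of_nonneg _ ht.le]
    have : K ^ t < m ^ t + m ^ t := by
      rw [← NNReal.coe_lt_coe]; push_cast; linarith
    exact_mod_cast this
  obtain ⟨t1, ht1, hA⟩ : ∃ t : ℝ, t0 ≤ t ∧ Z s 1 t < 1 := by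
    have h3 := ENNReal.Tendsto.mul_const (b := Z s 1 t0)
      (ENNReal.tendsto_pow_atTop_nhds_zero_of_lt_one (r := L) (by exact_mod_cast hL))
      (Or.inr (Zfin 1 t0 ht0))
    rw [zero_mul] at h3
    obtain ⟨n, hn⟩ := (h3.eventually (gt_mem_nhds one_pos)).exists
    refine ⟨n + t0, by simp, lt_of_le_of_lt ?_ hn⟩
    rw [Z1, Z1, ← ENNReal.tsum_mul_left]
    refine ENNReal.tsum_le_tsum fun i => ?_
    rw [ENNReal.rpow_add_of_nonneg _ _ (by positivity) ht0.le, ENNReal.rpow_natCast]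
    gcongr
    exact hS i
  have cont : ∀ N, Continuous fun t : ℝ => (Z s N (max t t0)).toReal := by
    intro N
    have e : ∀ t : ℝ, 0 < t → ∀ ω : Fin N → ι, S (wd s ω) ^ t ≠ ⊤ := fun t ht ω =>
      ENNReal.rpow_ne_top_of_nonneg ht.le (ne_top_of_le_ne_top ENNReal.one_ne_top (S1 (List.ofFn ω)))
    have : (fun t : ℝ => (Z s N (max t t0)).toReal) =
        fun t => ∑' ω : Fin N → ι, (S (wd s ω)).toReal ^ (max t t0) := by
      ext t
      rw [Z, ENNReal.tsum_toReal_eq (e _ (lt_max_of_lt_right ht0))]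
      simp only [ENNReal.toReal_rpow]
    rw [this]
    refine continuous_tsum (u := fun ω : Fin N → ι => (S (wd s ω) ^ t0).toReal) (fun ω => ?_)
      (ENNReal.summable_toReal (Zfin N t0 ht0)) (fun ω t => ?_)
    · exact continuous_const.rpow (by fun_prop) fun t => Or.inr (lt_max_of_lt_right ht0)
    · rw [Real.norm_of_nonneg (by positivity), ← ENNReal.toReal_rpow]
      refine Real.rpow_le_rpow_of_exponent_ge' (by positivity) ?_ ht0.le (le_max_right _ _)
      exact ENNReal.toReal_le_of_le_ofReal zero_le_one (by simpa [wd] using S1 (List.ofFn ω))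
  obtain ⟨t, hta, htb⟩ : ∃ t : ℝ, (∀ N, 1 ≤ Z s N (max t t0)) ∧
      ∀ N, Z s N (max t t0) ≤ K ^ (max t t0) := by
    by_contra hcon
    have hp : ∀ t, 0 < max t t0 := fun t => lt_max_of_lt_right ht0
    have a1 : ∀ N t, (Z s N (max t t0)).toReal < 1 ↔ Z s N (max t t0) < 1 := fun N t => by
      rw [← ENNReal.toReal_lt_toReal (Zfin _ _ (hp t)) ENNReal.one_ne_top]; rfl
    have a2 : ∀ N t, (K : ℝ) ^ (max t t0) < (Z s N (max t t0)).toReal ↔
        (K : ℝ≥0∞) ^ (max t t0) < Z s N (max t t0) := fun N t => by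
      rw [← ENNReal.toReal_lt_toReal (ENNReal.rpow_ne_top_of_nonneg (hp t).le ENNReal.coe_ne_top)
        (Zfin _ _ (hp t)), ← ENNReal.toReal_rpow]; rfl
    have := isPreconnected_univ (α := ℝ) (⋃ N, {t | (Z s N (max t t0)).toReal < 1})
      (⋃ N, {t | (K : ℝ) ^ (max t t0) < (Z s N (max t t0)).toReal})
      (isOpen_iUnion fun N => isOpen_lt (cont N) continuous_const)
      (isOpen_iUnion fun N => isOpen_lt
        (continuous_const.rpow (by fun_prop) fun t => Or.inr (hp t)) (cont N))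
      (fun t _ => by
        by_contra hc
        simp only [mem_union, mem_iUnion, mem_ofPred_eq, a1, a2, not_or, not_exists, not_lt] at hc
        exact hcon ⟨t, hc.1, hc.2⟩)
      ⟨t1, trivial, mem_iUnion.2 ⟨1, (a1 1 t1).2 (by rwa [max_eq_left ht1])⟩⟩
      ⟨t0, trivial, mem_iUnion.2 ⟨1, (a2 1 t0).2 (by rwa [max_self])⟩⟩
    obtain ⟨t, -, h4, h5⟩ := this
    simp only [mem_iUnion, mem_ofPred_eq, a1, a2] at h4 h5
    obtain ⟨N, hN⟩ := h4
    obtain ⟨M, hM⟩ := h5
    have hKt : (1 : ℝ≥0∞) ≤ K ^ (max t t0) := ENNReal.one_le_rpow hK1 (hp t)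
    have hM0 : M ≠ 0 := by
      rintro rfl
      rw [Z_zero] at hM
      exact absurd hKt (not_le.2 hM)
    have hN0 : N ≠ 0 := by
      rintro rfl
      rw [Z_zero] at hN
      exact absurd hN (lt_irrefl _)
    have b1 : Z s (N * M) (max t t0) ≤ 1 := (Zp N M _ (hp t).le).trans (pow_le_one₀ (by positivity) hN.le)
    have b2 := (Zq M N _ (hp t).le).trans (mul_le_mul_right b1 _)
    rw [mul_one] at b2
    exact absurd ((ENNReal.pow_le_pow_left_iff hN0).1 b2) (not_le.2 hM)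
  have hp : 0 < max t t0 := lt_max_of_lt_right ht0
  refine ⟨max t t0, hp.le, fun N => ⟨one_pos.trans_le (hta N), (Zfin N _ hp).lt_top⟩, ?_⟩
  have c1 : ∀ N, 1 ≤ (Z s N (max t t0)).toReal := fun N => by
    simpa using ENNReal.toReal_mono (Zfin N _ hp) (hta N)
  refine squeeze_zero (fun N => div_nonneg (Real.log_nonneg (c1 N)) (by positivity))
    (fun N => ?_) (tendsto_const_div_atTop_nhds_zero_nat
      (Real.log ((K : ℝ≥0∞) ^ (max t t0)).toReal))
  refine div_le_div_of_nonneg_right (Real.log_le_log (one_pos.trans_le (c1 N)) ?_) (by positivity)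
  exact ENNReal.toReal_mono (ENNReal.rpow_ne_top_of_nonneg hp.le ENNReal.coe_ne_top) (htb N)

end Pool.Agent.H.MP_c785a0_an
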