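import Pool.Agent.H.MP_c785a0_an.B

set_option autoImplicit false

namespace Pool.Agent.H.MP_c785a0_an

open Set Metric Filter Topology MeasureTheory
open scoped ENNReal NNReal

variable {ι : Type}

noncomputable def ff (a : ι → ℝ) (i : ι) (z : ℂ) : ℂ := (z + a i) / (((a i) ^ 2 - 1 : ℝ) : ℂ)

noncomputable def gg (a : ι → ℝ) (i : ι) (z : ℂ) : ℂ := 1 / (z + a i)

theorem nlow (z : ℂ) (a : ℝ) : |a| - ‖z‖ ≤ ‖z + a‖ ∧ ‖z + a‖ ≤ |a| + ‖z‖ := by
  have h1 := norm_add_le z (a : ℂ)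
  have h2 := norm_sub_le (z + a) z
  rw [add_sub_cancel_left] at h2
  rw [Complex.norm_real, Real.norm_eq_abs] at h1 h2
  constructor <;> linarith

def P (a : ℝ) (w : ℂ) : Prop := 1 < (|a| + 1) * ‖w‖ ∧ (|a| - 1) * ‖w‖ < 1 ∧ 0 < a * w.re

theorem disj {a : ι → ℝ} {s : ι → ℂ → ℂ} (hP : ∀ i, ∀ z ∈ ball (0 : ℂ) 1, P (a i) (s i z))
    (hs : ∀ i j, i ≠ j → |a i| + 2 ≤ |a j| ∨ |a j| + 2 ≤ |a i| ∨ a i * a j < 0) :
    ∀ i j, i ≠ j → Disjoint (s i '' ball 0 1) (s j '' ball 0 1) := by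
  intro i j hij
  rw [Set.disjoint_left]
  rintro w ⟨x, hx, rfl⟩ ⟨y, hy, e⟩
  obtain ⟨a1, a2, a3⟩ := hP i x hx
  obtain ⟨b1, b2, b3⟩ := hP j y hy
  rw [e] at b1 b2 b3
  have := norm_nonneg (s i x)
  rcases hs i j hij with h | h | h
  · nlinarith
  · nlinarith
  · nlinarith [mul_pos a3 b3, mul_self_nonneg (s i x).re]

theorem repos {a : ℝ} (ha : 2 ≤ |a|) {z : ℂ} (hz : ‖z‖ < 1) : 0 < a * (z + a).re := by
  have h1 := (Complex.abs_re_le_norm z).trans_lt hz
  rw [abs_lt] at h1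
  simp only [Complex.add_re, Complex.ofReal_re]
  rcases abs_cases a with h | h <;> nlinarith

theorem sq_sub {a : ℝ} : a ^ 2 - 1 = (|a| + 1) * (|a| - 1) := by
  rw [← sq_abs a]; ring

theorem ff_lip {a : ι → ℝ} (ha : ∀ i, 2 ≤ |a i|) (i : ι) (r : ℝ≥0) (hr : 1 ≤ r * (a i ^ 2 - 1)) :
    LipschitzOnWith r (ff a i) (closedBall 0 1) := by
  refine LipschitzOnWith.of_dist_le_mul fun x _ y _ => ?_
  have h : 0 < a i ^ 2 - 1 := by rw [sq_sub]; nlinarith [ha i]
  rw [dist_eq_norm, dist_eq_norm, ff, ff, ← sub_div, add_sub_add_right_eq_sub, norm_div,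
    Complex.norm_real, Real.norm_of_nonneg h.le, div_le_iff₀ h]
  nlinarith [norm_nonneg (x - y)]

theorem ff_cifs {a : ι → ℝ} (ha : ∀ i, 2 ≤ |a i|)
    (hs : ∀ i j, i ≠ j → |a i| + 2 ≤ |a j| ∨ |a j| + 2 ≤ |a i| ∨ a i * a j < 0) : CIFS (ff a) := by
  have h : ∀ i, 3 ≤ a i ^ 2 - 1 := fun i => by rw [sq_sub]; nlinarith [ha i]
  have hn : ∀ i z, ‖ff a i z‖ * ((|a i| + 1) * (|a i| - 1)) = ‖z + a i‖ := fun i z => by
    have := h i
    rw [ff, norm_div, Complex.norm_real, Real.norm_of_nonneg (by linarith), ← sq_sub]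
    field_simp
  have hinj : ∀ i, Function.Injective (ff a i) := fun i x y e => by
    have : (((a i) ^ 2 - 1 : ℝ) : ℂ) ≠ 0 := by
      have := h i
      exact_mod_cast (by linarith : a i ^ 2 - 1 ≠ 0)
    simpa [ff, div_left_inj' this] using (div_left_inj' this).1 e
  refine ⟨fun i => ⟨fun z hz => ?_, (hinj i).injOn⟩, ⟨1 / 2, by norm_num, fun i => ff_lip ha i _
    (by have := h i; push_cast; linarith)⟩, disj (fun i z hz => ?_) hs, univ, isOpen_univ,
    isConnected_univ, subset_univ _, fun i => ⟨?_, (hinj i).injOn, mapsTo_univ _ _⟩, 1, le_rfl,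
    fun l x _ y _ => ?_⟩
  · rw [mem_closedBall_zero_iff] at hz ⊢
    have h1 := hn i z
    have h2 := (nlow z (a i)).2
    have h3 := ha i
    by_contra hc
    nlinarith [mul_pos (sub_pos.2 (not_le.1 hc)) (by nlinarith : 0 < (|a i| + 1) * (|a i| - 1))]
  · rw [mem_ball_zero_iff] at hz
    have h1 := hn i z
    have h2 := nlow z (a i)
    have h3 := ha i
    refine ⟨?_, ?_, ?_⟩
    · by_contra hc; nlinarith [h2.1]
    · by_contra hc; nlinarith [h2.2]
    · rw [ff, Complex.div_ofReal_re, ← mul_div_assoc]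
      exact div_pos (repos h3 hz) (by linarith [h i])
  · unfold ff; fun_prop
  · obtain ⟨c, hc⟩ : ∃ c, ∀ x, HasDerivAt (cp (ff a) l) c x := by
      induction l with
      | nil => exact ⟨1, fun x => hasDerivAt_id x⟩
      | cons i l ih =>
        obtain ⟨c, hc⟩ := ih
        exact ⟨_, fun x => (((hasDerivAt_id _).add_const (a i : ℂ)).div_const
          (((a i) ^ 2 - 1 : ℝ) : ℂ)).comp x (hc x)⟩
    rw [(hc x).deriv, (hc y).deriv, one_mul]

theorem gg_der (a : ι → ℝ) (i : ι) {z : ℂ} (hz : z + a i ≠ 0) :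
    HasDerivAt (gg a i) (-1 / (z + a i) ^ 2) z := by
  have := ((hasDerivAt_id z).add_const (a i : ℂ)).inv hz
  unfold gg
  simp only [one_div]
  exact this

theorem gg_S {a : ι → ℝ} (i : ι) (ha : 2 ≤ |a i|) :
    S (gg a i) ≤ ENNReal.ofReal (1 / (|a i| - 1) ^ 2) ∧
      ENNReal.ofReal (1 / a i ^ 2) ≤ S (gg a i) := by
  constructor
  · refine iSup₂_le fun x hx => ?_
    rw [mem_closedBall_zero_iff] at hx
    have h1 := (nlow x (a i)).1
    rw [(gg_der a i (norm_pos_iff.1 (by linarith))).deriv, ← ofReal_norm, norm_div,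
      norm_neg, norm_one, norm_pow]
    have : 0 < |a i| - 1 := by linarith
    gcongr; linarith
  · refine le_trans (le_of_eq ?_) (le_S _ (x := 0) (by simp))
    have h1 := (nlow 0 (a i)).1
    rw [norm_zero] at h1
    rw [(gg_der a i (norm_pos_iff.1 (by linarith))).deriv, ← ofReal_norm]
    simp

theorem gg_cifs {a : ι → ℝ} {ε : ℝ} (hε : 0 < ε) (ha : ∀ i, 2 + ε ≤ |a i|)
    (hs : ∀ i j, i ≠ j → |a i| + 2 ≤ |a j| ∨ |a j| + 2 ≤ |a i| ∨ a i * a j < 0) : CIFS (gg a) := by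
  have hinj : ∀ i, Function.Injective (gg a i) := fun i x y e => by
    simpa [gg] using e
  have hm : ∀ i z, ‖z‖ ≤ 1 + ε / 2 → ‖gg a i z‖ ≤ 1 := fun i z hz => by
    have h1 := (nlow z (a i)).1
    have := ha i
    rw [gg, norm_div, norm_one, div_le_one (by linarith)]; linarith
  have hne : ∀ i (z : ℂ), ‖z‖ ≤ 1 + ε / 2 → z + a i ≠ 0 := fun i z hz => by
    have h1 := (nlow z (a i)).1
    have := ha i
    exact norm_pos_iff.1 (by linarith)
  have hV : ∀ i, MapsTo (gg a i) (ball 0 (1 + ε / 2)) (ball 0 (1 + ε / 2)) := fun i z hz => by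
    rw [mem_ball_zero_iff] at hz ⊢
    linarith [hm i z hz.le]
  set c : ℝ := 1 - (1 + ε / 2) / (1 + ε) with hc
  have hc0 : 0 < c := by rw [hc, sub_pos, div_lt_one (by linarith)]; linarith
  have hc1 : c ≤ 1 := by rw [hc, sub_le_self_iff]; positivity
  refine ⟨fun i => ⟨fun z hz => ?_, (hinj i).injOn⟩, ⟨⟨1 / (1 + ε), by positivity⟩, ?_, fun i => ?_⟩,
    disj (fun i z hz => ?_) hs, ball 0 (1 + ε / 2), isOpen_ball,
    (convex_ball _ _).isConnected (nonempty_ball.2 (by linarith)),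
    closedBall_subset_ball (by linarith), fun i => ⟨fun z hz => ?_, (hinj i).injOn, hV i⟩,
    (2 / c) ^ 2, one_le_pow₀ (by rw [le_div_iff₀ hc0]; linarith), fun l x hx y hy => ?_⟩
  · rw [mem_closedBall_zero_iff] at hz ⊢
    exact hm i z (by linarith)
  · rw [← NNReal.coe_lt_coe]
    show 1 / (1 + ε) < 1
    rw [div_lt_one (by linarith)]; linarith
  · refine LipschitzOnWith.of_dist_le_mul fun x hx y hy => ?_
    rw [mem_closedBall_zero_iff] at hx hy
    have h1 := (nlow x (a i)).1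
    have h2 := (nlow y (a i)).1
    have h3 := ha i
    rw [dist_eq_norm, dist_eq_norm, gg, gg, div_sub_div _ _ (hne i x (by linarith))
      (hne i y (by linarith)), one_mul, mul_one, add_sub_add_right_eq_sub, norm_div, norm_mul,
      norm_sub_rev]
    show _ ≤ 1 / (1 + ε) * _
    rw [one_div_mul_eq_div]
    refine div_le_div_of_nonneg_left (norm_nonneg _) (by linarith) ?_
    nlinarith
  · rw [mem_ball_zero_iff] at hz
    have h2 := nlow z (a i)
    have h3 := ha i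
    have h4 : 0 < ‖z + a i‖ := by linarith [h2.1]
    refine ⟨?_, ?_, ?_⟩
    · rw [gg, norm_div, norm_one, mul_one_div, lt_div_iff₀ h4]; linarith [h2.2]
    · rw [gg, norm_div, norm_one, mul_one_div, div_lt_iff₀ h4]; linarith [h2.1]
    · rw [gg, one_div, Complex.inv_re, ← mul_div_assoc]
      exact div_pos (repos (by linarith) hz) (Complex.normSq_pos.2 (norm_pos_iff.1 h4))
  · rw [mem_ball_zero_iff] at hz
    exact (gg_der a i (hne i z hz.le)).differentiableAt.differentiableWithinAt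
  · have hq : ∀ q z : ℂ, ‖q‖ ≤ 1 / (1 + ε) → z ∈ ball (0 : ℂ) (1 + ε / 2) →
        c ≤ ‖1 + q * z‖ ∧ ‖1 + q * z‖ ≤ 2 := by
      intro q z hq hz
      rw [mem_ball_zero_iff] at hz
      have h1 : ‖q * z‖ ≤ (1 + ε / 2) / (1 + ε) := by
        rw [norm_mul, ← one_div_mul_eq_div]; gcongr
      have h2 := norm_add_le 1 (q * z)
      have h3 := norm_sub_le (1 + q * z) (q * z)
      rw [add_sub_cancel_right] at h3
      rw [norm_one] at h2 h3
      constructor <;> linarith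
    obtain ⟨A, q, hq1, hA⟩ : ∃ A q : ℂ, ‖q‖ ≤ 1 / (1 + ε) ∧ ∀ z ∈ ball (0 : ℂ) (1 + ε / 2),
        HasDerivAt (cp (gg a) l) (A / (1 + q * z) ^ 2) z := by
      induction l using List.reverseRecOn with
      | nil => exact ⟨1, 0, by simp; positivity, fun z _ => (hasDerivAt_id z).congr_deriv (by simp)⟩
      | append_singleton l i ih =>
        obtain ⟨A, q, hq1, hA⟩ := ih
        have h1 := (nlow q (a i)).1
        have h2 : 1 / (1 + ε) ≤ 1 := by rw [div_le_one (by linarith)]; linarith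
        have h3 := ha i
        have h4 : q + a i ≠ 0 := norm_pos_iff.1 (by linarith)
        have h5 : ‖1 / (q + a i)‖ ≤ 1 / (1 + ε) := by
          rw [norm_div, norm_one]; gcongr; linarith
        refine ⟨-A / (q + a i) ^ 2, 1 / (q + a i), h5, fun z hz => ?_⟩
        have h6 := hne i z (mem_ball_zero_iff.1 hz).le
        have h7 : 1 + 1 / (q + a i) * z ≠ 0 := norm_pos_iff.1 (hc0.trans_le (hq _ z h5 hz).1)
        have h8 : 1 + q * gg a i z ≠ 0 := norm_pos_iff.1 (hc0.trans_le (hq _ _ hq1 (hV i hz)).1)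
        rw [cp_append]
        refine ((hA _ (hV i hz)).comp z (gg_der a i h6)).congr_deriv ?_
        have e1 : 1 + q * gg a i z = (z + a i + q) / (z + a i) := by rw [gg]; field_simp
        have e2 : 1 + 1 / (q + a i) * z = (z + a i + q) / (q + a i) := by field_simp; ring
        have h9 : z + a i + q ≠ 0 := fun h => h8 (by rw [e1, h, zero_div])
        rw [e1, e2]
        field_simp
    rw [(hA x hx).deriv, (hA y hy).deriv, norm_div, norm_div, norm_pow, norm_pow]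
    obtain ⟨b1, b2⟩ := hq q x hq1 hx
    obtain ⟨b3, b4⟩ := hq q y hq1 hy
    calc ‖A‖ / ‖1 + q * y‖ ^ 2 ≤ ‖A‖ / c ^ 2 := by gcongr
      _ = (2 / c) ^ 2 * (‖A‖ / 2 ^ 2) := by field_simp
      _ ≤ _ := by have := hc0.trans_le b1; gcongr

end Pool.Agent.H.MP_c785a0_an
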