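import Pool.Agent.H.MP_c785a0_an.C

set_option autoImplicit false

namespace Pool.Agent.H.MP_c785a0_an

open Set Metric Filter Topology MeasureTheory
open scoped ENNReal NNReal

theorem tele (n : ℕ) : 3 / 2 * (1 / (251 / 100 : ℝ) ^ (1 / 3 : ℝ) - 1 / (2 * n + 251 / 100 : ℝ) ^ (1 / 3 : ℝ))
    ≤ ∑ k ∈ Finset.range n, (1 / (2 * k + 251 / 100 : ℝ) ^ 2) ^ (2 / 3 : ℝ) := by
  induction n with
  | zero => simp
  | succ n ih =>
    rw [Finset.sum_range_succ]
    have h0 : (0 : ℝ) < 2 * n + 251 / 100 := by positivity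
    have cube : ∀ v : ℝ, 0 < v → (v ^ (1 / 3 : ℝ)) ^ 3 = v := fun v hv => by
      rw [← Real.rpow_natCast, ← Real.rpow_mul hv.le]; norm_num
    have e : (1 / (2 * n + 251 / 100 : ℝ) ^ 2) ^ (2 / 3 : ℝ) =
        1 / ((2 * n + 251 / 100 : ℝ) ^ (1 / 3 : ℝ)) ^ 4 := by
      rw [Real.div_rpow zero_le_one (by positivity), Real.one_rpow, ← Real.rpow_natCast,
        ← Real.rpow_natCast, ← Real.rpow_mul h0.le, ← Real.rpow_mul h0.le]
      norm_num
    rw [e]
    have h1 := cube _ h0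
    have h2 := cube (2 * ((n + 1 : ℕ) : ℝ) + 251 / 100) (by positivity)
    have p1 : 0 < (2 * n + 251 / 100 : ℝ) ^ (1 / 3 : ℝ) := by positivity
    have p2 : (2 * n + 251 / 100 : ℝ) ^ (1 / 3 : ℝ) ≤
        (2 * ((n + 1 : ℕ) : ℝ) + 251 / 100) ^ (1 / 3 : ℝ) := by
      gcongr; omega
    generalize (2 * n + 251 / 100 : ℝ) ^ (1 / 3 : ℝ) = x at *
    generalize (2 * ((n + 1 : ℕ) : ℝ) + 251 / 100) ^ (1 / 3 : ℝ) = y at *
    have p3 : 0 < y := by linarith
    have h3 : y ^ 3 - x ^ 3 = 2 := by rw [h1, h2]; push_cast; ring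
    have h4 : 3 * x ^ 2 * (y - x) ≤ 2 := by
      nlinarith [mul_nonneg (sq_nonneg (y - x)) (by linarith : 0 ≤ y + 2 * x)]
    have h5 : 3 / 2 * (1 / x - 1 / y) ≤ 1 / x ^ 4 := by
      have e2 : 3 / 2 * (1 / x - 1 / y) = (3 * x ^ 2 * (y - x) / 2) / (x ^ 3 * y) := by
        field_simp
      rw [e2, pow_succ x 3]
      gcongr; linarith
    linarith

theorem sum_ge : 1 ≤ ∑ k : Fin 4000, (1 / (2 * (k : ℕ) + 251 / 100 : ℝ) ^ 2) ^ (2 / 3 : ℝ) := by
  rw [Fin.sum_univ_eq_sum_range (fun k : ℕ => (1 / (2 * k + 251 / 100 : ℝ) ^ 2) ^ (2 / 3 : ℝ))]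
  refine le_trans ?_ (tele 4000)
  have root : ∀ v : ℝ, 0 ≤ v → (v ^ 3) ^ (1 / 3 : ℝ) = v := fun v hv => by
    rw [← Real.rpow_natCast, ← Real.rpow_mul hv]; norm_num
  have h1 : (251 / 100 : ℝ) ^ (1 / 3 : ℝ) ≤ 136 / 100 := by
    rw [← root (136 / 100) (by norm_num)]; gcongr; norm_num
  have h2 : (20 : ℝ) ≤ (2 * ((4000 : ℕ) : ℝ) + 251 / 100) ^ (1 / 3 : ℝ) := by
    rw [← root 20 (by norm_num)]; gcongr; norm_num
  have h3 : 1 / (136 / 100 : ℝ) ≤ 1 / (251 / 100 : ℝ) ^ (1 / 3 : ℝ) := by gcongr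
  have h4 : 1 / (2 * ((4000 : ℕ) : ℝ) + 251 / 100) ^ (1 / 3 : ℝ) ≤ 1 / 20 := by gcongr
  norm_num at h3 h4 ⊢
  linarith

theorem lower {ι : Type} (s : ι → ℂ → ℂ) (ip im : ι) (d : ℝ) (hd : d = 2 + 1 / 10 ^ 15)
    (hp : ∀ z, s ip z = 1 / (z + d)) (hm : ∀ z, s im z = 1 / (z - d)) :
    ENNReal.ofReal (2 / 3) ≤ dimH (J s) := by
  have hd1 : 2 < d := by rw [hd]; norm_num
  obtain ⟨u, hu, hrec⟩ := fix (T := ℕ × (ℕ → Fin 4000))
    (fun t => if t.1 = 0 then ((t.2 0 : ℕ), fun n => t.2 (n + 1)) else (t.1 - 1, t.2))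
    (fun t x => if t.1 = 0 then 1 / (d + x) else 1 / (d - x)) (1 / (d - 1))
    (by rw [div_lt_one] <;> linarith) (div_nonneg zero_le_one (by linarith))
    (fun t x hx => by
      obtain ⟨a, b⟩ := hx
      dsimp only
      split_ifs
      · exact ⟨by positivity, by rw [div_le_one] <;> linarith⟩
      · exact ⟨div_nonneg zero_le_one (by linarith), by rw [div_le_one] <;> linarith⟩)
    (fun t x hx y hy => by
      obtain ⟨a, b⟩ := hx
      obtain ⟨a', b'⟩ := hy
      have key : ∀ p q : ℝ, d - 1 ≤ p → d - 1 ≤ q → |1 / p - 1 / q| ≤ 1 / (d - 1) * |p - q| := by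
        intro p q h1 h2
        have hp : 0 < p := by linarith
        have hq : 0 < q := by linarith
        rw [div_sub_div _ _ hp.ne' hq.ne', abs_div, one_mul, mul_one, abs_sub_comm,
          abs_of_pos (mul_pos hp hq), one_div_mul_eq_div]
        exact div_le_div_of_nonneg_left (abs_nonneg _) (by linarith) (by nlinarith)
      split_ifs
      · simpa using key (d + x) (d + y) (by linarith) (by linarith)
      · simpa [abs_sub_comm] using key (d - x) (d - y) (by linarith) (by linarith))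
  have r0 : ∀ ω : ℕ → Fin 4000, u (0, ω) = 1 / (d + u (ω 0, fun n => ω (n + 1))) := fun ω => by
    simpa using hrec (0, ω)
  have r1 : ∀ k ω, u (k + 1, ω) = 1 / (d - u (k, ω)) := fun k ω => by
    simpa using hrec (k + 1, ω)
  have m0 : ∀ ω : ℕ → Fin 4000, u (0, ω) * (d + u (ω 0, fun n => ω (n + 1))) = 1 := fun ω => by
    have := (hu (ω 0, fun n => ω (n + 1))).1
    rw [r0 ω]; field_simp
  have m1 : ∀ k ω, u (k + 1, ω) * (d - u (k, ω)) = 1 := fun k ω => by
    have : d - u (k, ω) ≠ 0 := by linarith [(hu (k, ω)).2, hd1] |> fun h : 0 < d - u (k, ω) => h.ne'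
    rw [r1]; field_simp
  have lo : ∀ t, 1 / 3 - 1 / 10 ^ 15 ≤ u t := by
    rintro ⟨k, ω⟩
    rcases k with _ | k
    · have := m0 ω
      have a := hu (0, ω)
      have b := hu (ω 0, fun n => ω (n + 1))
      rw [hd] at this
      nlinarith [a.1, a.2, b.1, b.2]
    · have := m1 k ω
      have a := hu (k + 1, ω)
      have b := hu (k, ω)
      rw [hd] at this
      nlinarith [a.1, a.2, b.1, b.2]
  have lo4 : ∀ t, 1 / 4 ≤ u t := fun t => le_trans (by norm_num) (lo t)
  have gap : ∀ k k' ω τ, k < k' → (1 / 16) ^ k * (1 / 100) ≤ u (k', τ) - u (k, ω) := by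
    intro k
    induction k with
    | zero =>
      intro k' ω τ hk
      obtain ⟨m, rfl⟩ : ∃ m, k' = m + 1 := ⟨k' - 1, by omega⟩
      have a := m0 ω
      have b := m1 m τ
      have a1 := lo4 (ω 0, fun n => ω (n + 1))
      have a2 := lo4 (0, ω)
      have b1 := lo4 (m, τ)
      have b2 := lo4 (m + 1, τ)
      rw [hd] at a b
      have : u (0, ω) ≤ 45 / 100 := by nlinarith
      have : 1 / 2 ≤ u (m + 1, τ) := by nlinarith
      linarith
    | succ k ih =>
      intro k' ω τ hk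
      obtain ⟨m, rfl⟩ : ∃ m, k' = m + 1 := ⟨k' - 1, by omega⟩
      have h := ih m ω τ (by omega)
      have e : u (m + 1, τ) - u (k + 1, ω) = (u (m, τ) - u (k, ω)) * (u (m + 1, τ) * u (k + 1, ω)) := by
        linear_combination (-u (m + 1, τ)) * m1 k ω + u (k + 1, ω) * m1 m τ
      have h2 : 1 / 16 ≤ u (m + 1, τ) * u (k + 1, ω) := by
        nlinarith [lo4 (m + 1, τ), lo4 (k + 1, ω)]
      rw [e, pow_succ, mul_right_comm]
      exact mul_le_mul h h2 (by norm_num) (le_trans (by positivity) h)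
  obtain ⟨D, hD0, hD⟩ : ∃ D : (ℕ → Fin 4000) → ℕ → ℝ, (∀ ω, D ω 0 = 1) ∧
      ∀ ω j, D ω (j + 1) = D ω j * (d - u (j, ω)) :=
    ⟨fun ω j => Nat.rec 1 (fun j x => x * (d - u (j, ω))) j, fun _ => rfl, fun _ _ => rfl⟩
  have dif : ∀ ω τ j, (u (j, ω) - u (j, τ)) * (D ω j * D τ j) = u (0, ω) - u (0, τ) := by
    intro ω τ j
    induction j with
    | zero => simp [hD0]
    | succ j ih =>
      rw [hD, hD]
      linear_combination (D ω j * D τ j * (d - u (j, τ))) * m1 j ω -
        (D ω j * D τ j * (d - u (j, ω))) * m1 j τ + ih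
  have est : ∀ ω (j : ℕ), j ≤ 4000 → 1 - u (0, ω) ≤ D ω j * (1 - u (j, ω)) ∧
      D ω j * (1 - u (j, ω)) ≤ 1 - u (0, ω) + j * (5 / 10 ^ 12) ∧ 0 < D ω j ∧
      D ω j ≤ 1 + j * (1 - u (0, ω)) + j ^ 2 * (5 / 10 ^ 12) := by
    intro ω j
    induction j with
    | zero => simp [hD0]
    | succ j ih =>
      intro hj
      obtain ⟨a1, a2, a3, a4⟩ := ih (by omega)
      have hj' : (j : ℝ) ≤ 4000 := by exact_mod_cast (by omega : j ≤ 4000)
      have hj0 : (0 : ℝ) ≤ j := by positivity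
      have b := hu (0, ω)
      have a5 : D ω j ≤ 5000 := by nlinarith [b.1, b.2]
      have e1 : D ω (j + 1) * (1 - u (j + 1, ω)) = D ω j * (1 - u (j, ω)) + D ω j / 10 ^ 15 := by
        rw [hD]
        have := m1 j ω
        rw [hd] at this ⊢
        linear_combination (-D ω j) * this
      have e2 : D ω (j + 1) = D ω j + (D ω j * (1 - u (j, ω)) + D ω j / 10 ^ 15) := by
        rw [hD, hd]; ring
      rw [e1]
      push_cast
      refine ⟨by linarith, by linarith, by linarith [b.2], ?_⟩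
      rw [e2]; nlinarith
  have GG : ∀ ω (k : Fin 4000), D ω k * (d + 1 + u (k, ω)) ≤
      (1 + u (0, ω)) * (2 * (k : ℕ) + 251 / 100) := by
    intro ω k
    obtain ⟨a1, -, a3, a4⟩ := est ω k k.2.le
    have hj' : ((k : ℕ) : ℝ) ≤ 4000 := by exact_mod_cast k.2.le
    have hj0 : (0 : ℝ) ≤ (k : ℕ) := by positivity
    have b := lo (0, ω)
    have b2 := (hu (0, ω)).2
    have a5 : D ω k ≤ 1 + (k : ℕ) * (1 - u (0, ω)) + 8 / 10 ^ 5 := by nlinarith
    have a6 : D ω k ≤ 5000 := by nlinarith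
    rw [hd]
    nlinarith [mul_nonneg hj0 (sub_nonneg.2 b)]
  have main : ∀ k ω τ, (∀ i < k, ω i = τ i) → ω k ≠ τ k →
      ((1 / 16) ^ 4001 * (1 / 400) * ∏ i ∈ Finset.range k, 1 / (2 * (τ i : ℕ) + 251 / 100 : ℝ) ^ 2) *
        ((1 + u (0, ω)) * (1 + u (0, τ))) ≤ |u (0, ω) - u (0, τ)| := by
    intro k
    have e : ∀ ω τ : ℕ → Fin 4000, |u (0, ω) - u (0, τ)| = |u (ω 0, fun n => ω (n + 1)) -
        u (τ 0, fun n => τ (n + 1))| * (u (0, ω) * u (0, τ)) := by
      intro ω τ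
      rw [← abs_of_nonneg (mul_nonneg (hu (0, ω)).1 (hu (0, τ)).1), ← abs_mul, ← abs_neg]
      congr 1
      linear_combination (-u (0, τ)) * m0 ω + u (0, ω) * m0 τ
    induction k with
    | zero =>
      intro ω τ _ hne
      have h1 : (1 / 16 : ℝ) ^ 4000 * (1 / 100) ≤ |u (ω 0, fun n => ω (n + 1)) -
          u (τ 0, fun n => τ (n + 1))| := by
        have pw : ∀ k : Fin 4000, (1 / 16 : ℝ) ^ 4000 * (1 / 100) ≤ (1 / 16) ^ (k : ℕ) * (1 / 100) :=
          fun k => mul_le_mul_of_nonneg_right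
            (pow_le_pow_of_le_one (by norm_num) (by norm_num) k.2.le) (by norm_num)
        rcases lt_or_gt_of_ne hne with h | h
        · exact ((pw _).trans (gap _ _ _ _ h)).trans (by rw [abs_sub_comm]; exact le_abs_self _)
        · exact ((pw _).trans (gap _ _ _ _ h)).trans (le_abs_self _)
      have h2 : 1 / 16 ≤ u (0, ω) * u (0, τ) := by nlinarith [lo4 (0, τ), lo4 (0, ω)]
      have h3 : (1 + u (0, ω)) * (1 + u (0, τ)) ≤ 4 := by
        nlinarith [(hu (0, τ)).2, (hu (0, ω)).2, (hu (0, τ)).1, (hu (0, ω)).1]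
      rw [e, pow_succ, Finset.prod_range_zero, mul_one]
      have h4 : (0 : ℝ) ≤ (1 / 16) ^ 4000 := by positivity
      generalize (1 / 16 : ℝ) ^ 4000 = w at *
      calc _ ≤ w * (1 / 16) * (1 / 400) * 4 := by gcongr
        _ = w * (1 / 100) * (1 / 16) := by ring
        _ ≤ _ := by gcongr
    | succ k ih =>
      intro ω τ h hne
      have h1 := ih (fun n => ω (n + 1)) (fun n => τ (n + 1)) (fun i hi => h _ (by omega)) hne
      have h0 : ω 0 = τ 0 := h 0 (by omega)
      rw [Finset.prod_range_succ', e, ← mul_assoc _ (Finset.prod _ _)]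
      have a := m0 ω
      have b := m0 τ
      have g1 := GG (fun n => ω (n + 1)) (τ 0)
      have g2 := GG (fun n => τ (n + 1)) (τ 0)
      have d1 := (est (fun n => ω (n + 1)) (τ 0) (τ 0).2.le).2.2.1
      have d2 := (est (fun n => τ (n + 1)) (τ 0) (τ 0).2.le).2.2.1
      rw [← dif _ _ (τ 0), abs_mul, abs_of_pos (mul_pos d1 d2)] at h1
      rw [h0] at a ⊢
      have hw : (0 : ℝ) ≤ (1 / 16) ^ 4001 * (1 / 400) *
        ∏ i ∈ Finset.range k, 1 / (2 * (τ (i + 1) : ℕ) + 251 / 100 : ℝ) ^ 2 := by positivity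
      have c1 := hu (0, ω)
      have c2 := hu (0, τ)
      have c3 := hu (τ 0, fun n => ω (n + 1))
      have c4 := hu (τ 0, fun n => τ (n + 1))
      have c5 := hu (0, fun n => ω (n + 1))
      have c6 := hu (0, fun n => τ (n + 1))
      generalize (1 / 16 : ℝ) ^ 4001 * (1 / 400) *
        ∏ i ∈ Finset.range k, 1 / (2 * (τ (i + 1) : ℕ) + 251 / 100 : ℝ) ^ 2 = w at *
      have hc : (0 : ℝ) < 2 * (τ 0 : ℕ) + 251 / 100 := by positivity
      generalize (2 * (τ 0 : ℕ) + 251 / 100 : ℝ) = c at *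
      generalize u (0, ω) = U at *
      generalize u (0, τ) = U' at *
      generalize u (τ 0, fun n => ω (n + 1)) = x at *
      generalize u (τ 0, fun n => τ (n + 1)) = x' at *
      generalize u (0, fun n => ω (n + 1)) = y at *
      generalize u (0, fun n => τ (n + 1)) = y' at *
      generalize D (fun n => ω (n + 1)) (τ 0) = p at *
      generalize D (fun n => τ (n + 1)) (τ 0) = p' at *
      have e1 : 1 + U = U * (d + 1 + x) := by linarith
      have e2 : 1 + U' = U' * (d + 1 + x') := by linarith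
      have q1 : 0 ≤ d + 1 + x := by linarith [c3.1]
      have q2 : 0 ≤ d + 1 + x' := by linarith [c4.1]
      have h5 : w * (1 / c ^ 2) * ((d + 1 + x) * (d + 1 + x')) ≤ |x - x'| := by
        refine le_of_mul_le_mul_right (le_trans ?_ h1) (mul_pos d1 d2)
        calc _ = w * (1 / c ^ 2) * ((p * (d + 1 + x)) * (p' * (d + 1 + x'))) := by ring
          _ ≤ w * (1 / c ^ 2) * (((1 + y) * c) * ((1 + y') * c)) := by
              have := c5.1
              gcongr
          _ = _ := by field_simp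
      rw [e1, e2]
      calc _ = w * (1 / c ^ 2) * ((d + 1 + x) * (d + 1 + x')) * (U * U') := by ring
        _ ≤ _ := mul_le_mul_of_nonneg_right h5 (mul_nonneg c1.1 c2.1)
  refine moran (fun k : Fin 4000 => 1 / (2 * (k : ℕ) + 251 / 100 : ℝ) ^ 2) (fun k => ⟨by positivity, ?_⟩)
    (fun ω => (u (0, ω) : ℂ)) ((1 / 16) ^ 4001 * (1 / 400)) (by positivity) (fun k ω τ h hne => ?_)
    (by norm_num) sum_ge _ (fun ω => ?_)
  · have : (0 : ℝ) ≤ (k : ℕ) := by positivity
    rw [div_le_div_iff₀ (by positivity) (by norm_num)]; nlinarith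
  · rw [Complex.dist_eq, ← Complex.ofReal_sub, Complex.norm_real, Real.norm_eq_abs]
    refine le_trans (le_mul_of_one_le_right (by positivity) ?_) (main k ω τ h hne)
    nlinarith [(hu (0, τ)).1, (hu (0, ω)).1]
  · have := memJ (s := s) (T := (ℕ × (ℕ → Fin 4000)) × Bool)
      (fun t => if t.1.1 = 0 then (((t.1.2 0 : ℕ), fun n => t.1.2 (n + 1)), t.2)
        else ((t.1.1 - 1, t.1.2), !t.2))
      (fun t => if t.2 then ip else im) (fun t => if t.2 then (u t.1 : ℂ) else -u t.1)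
      (fun t => by
        have := hu t.1
        split_ifs <;> simp [abs_of_nonneg this.1, this.2])
      (by
        rintro ⟨⟨k, ω⟩, b⟩
        rcases k with _ | k <;> cases b
        · simp only [hm, Bool.false_eq_true, if_false, if_true]
          rw [r0 ω]; push_cast
          rw [← neg_add', add_comm, div_neg]
        · simp only [hp, if_true]
          rw [r0 ω]; push_cast
          rw [add_comm]
        · simp only [hm, Bool.false_eq_true, if_false, Nat.succ_ne_zero, Bool.not_false, if_true,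
            Nat.add_sub_cancel]
          rw [r1]; push_cast
          rw [← div_neg, neg_sub]
        · simp only [hp, Bool.false_eq_true, if_false, Nat.succ_ne_zero, Bool.not_true, if_true,
            Nat.add_sub_cancel]
          rw [r1]; push_cast
          rw [neg_add_eq_sub]) ((0, ω), true)
    simpa using this

end Pool.Agent.H.MP_c785a0_an
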