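import Pool.Agent.H.MP_c785a0_an.D

set_option autoImplicit false

namespace Pool.Agent.H.MP_c785a0_an

open Set Metric Filter Topology MeasureTheory
open scoped ENNReal NNReal

noncomputable def al (d : ℕ → ℝ) (T : ℕ) (p : ℕ × Fin T) : ℂ :=
  Complex.exp (2 * Real.pi * Complex.I * ((p.2 : ℕ) / T)) * d p.1

noncomputable def F (d : ℕ → ℝ) (T : ℕ) (p : ℕ × Fin T) (z : ℂ) : ℂ :=
  (z + starRingEnd ℂ (al d T p)) / ((‖al d T p‖ ^ 2 - 1 : ℝ) : ℂ)

noncomputable def G (d : ℕ → ℝ) (T : ℕ) (p : ℕ × Fin T) (z : ℂ) : ℂ := 1 / (z + al d T p)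

theorem geo (c q : ℝ≥0∞) : ∑' p : ℕ × Fin 2, c * q ^ p.1 = 2 * c * (1 - q)⁻¹ := by
  rw [ENNReal.tsum_prod']
  simp only [tsum_fintype, Finset.sum_const, Finset.card_univ, Fintype.card_fin, nsmul_eq_mul,
    ← mul_assoc]
  rw [ENNReal.tsum_mul_left, ENNReal.tsum_geometric]
  norm_num

theorem main : ∃ (d : ℕ → ℝ) (T : ℕ), 0 < T ∧ 2 ≤ d 0 ∧ (∀ n, d n + 2 ≤ d (n + 1)) ∧
    CIFS (F d T) ∧ CIFS (G d T) ∧ Regular (G d T) ∧ dimH (J (F d T)) < dimH (J (G d T)) := by
  obtain ⟨D, hD⟩ : ∃ D : ℝ, D = 2 + 1 / 10 ^ 15 := ⟨_, rfl⟩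
  have hD2 : 2 < D := by rw [hD]; norm_num
  set d : ℕ → ℝ := fun n => D * 1000 ^ n with hd
  set a : ℕ × Fin 2 → ℝ := fun p => (-1) ^ (p.2 : ℕ) * d p.1 with ha
  have hal : ∀ p, al d 2 p = a p := by
    rintro ⟨n, j⟩
    fin_cases j
    · simp [al, ha]
    · have : (2 * Real.pi * Complex.I * ((1 : ℕ) / (2 : ℕ)) : ℂ) = Real.pi * Complex.I := by
        push_cast; ring
      simp only [al, ha]
      rw [this, Complex.exp_pi_mul_I]
      simp
  have hF : F d 2 = ff a := by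
    ext p z
    rw [F, ff, hal, Complex.conj_ofReal, Complex.norm_real, Real.norm_eq_abs, sq_abs]
  have hG : G d 2 = gg a := by
    ext p z
    rw [G, gg, hal]
  have p1 : ∀ n : ℕ, (1 : ℝ) ≤ 1000 ^ n := fun n => one_le_pow₀ (by norm_num)
  have hab : ∀ p, |a p| = D * 1000 ^ p.1 := fun p => by
    simp only [ha, hd, abs_mul, abs_pow, abs_neg, abs_one, one_pow, one_mul]
    rw [abs_of_pos (by linarith), abs_of_pos (by norm_num)]
  have hstep : ∀ n, d n + 2 ≤ d (n + 1) := fun n => by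
    simp only [hd, pow_succ]; nlinarith [p1 n]
  have hlt : ∀ n m, n < m → D * 1000 ^ n + 2 ≤ D * 1000 ^ m := fun n m h =>
    (hstep n).trans (mul_le_mul_of_nonneg_left (pow_le_pow_right₀ (by norm_num) h) (by linarith))
  have hge : ∀ p, 2 + 1 / 10 ^ 15 ≤ |a p| := fun p => by rw [hab, ← hD]; nlinarith [p1 p.1]
  have hge2 : ∀ p, 2 ≤ |a p| := fun p => le_trans (by norm_num) (hge p)
  have hs : ∀ i j, i ≠ j → |a i| + 2 ≤ |a j| ∨ |a j| + 2 ≤ |a i| ∨ a i * a j < 0 := by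
    rintro ⟨n, i⟩ ⟨m, j⟩ hne
    rw [hab, hab]
    rcases lt_trichotomy n m with h | rfl | h
    · exact Or.inl (hlt _ _ h)
    · refine Or.inr (Or.inr ?_)
      have : 0 < d n := by simp only [hd]; positivity
      fin_cases i <;> fin_cases j <;> simp [ha, this.ne'] at hne ⊢
    · exact Or.inr (Or.inl (hlt _ _ h))
  have hC := gg_cifs (by norm_num) hge hs
  refine ⟨d, 2, by norm_num, by simp [hd]; linarith, hstep, hF ▸ ff_cifs hge2 hs, hG ▸ hC, ?_, ?_⟩
  · rw [hG]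
    have hS : ∀ p, S (gg a p) ≤ ENNReal.ofReal (1 / (D - 1)) * ENNReal.ofReal (1 / 1000) ^ p.1 := by
      intro p
      refine (gg_S p (hge2 p)).1.trans ?_
      rw [← ENNReal.ofReal_pow (by norm_num), ← ENNReal.ofReal_mul (by
        apply div_nonneg <;> linarith), hab, one_div_pow, one_div_mul_one_div]
      have h1 := p1 p.1
      have h2 : 0 < D - 1 := by linarith
      refine ENNReal.ofReal_le_ofReal (one_div_le_one_div_of_le (by positivity) ?_)
      have h3 : (D - 1) * 1000 ^ p.1 ≤ D * 1000 ^ p.1 - 1 := by linarith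
      have h4 : 1 ≤ (D - 1) * 1000 ^ p.1 := by nlinarith
      nlinarith
    refine regular hC (Real.toNNReal (1 / (D - 1))) ?_ (fun p => (hS p).trans ?_) (0, 0) (0, 1)
      (by simp) (Real.toNNReal (1 / D ^ 2)) (by simp; positivity) ?_ ?_ (fun t ht => ?_)
    · rw [Real.toNNReal_lt_one, div_lt_one] <;> linarith
    · exact mul_le_of_le_one_right' (pow_le_one₀ (by positivity) (by
        rw [ENNReal.ofReal_le_one]; norm_num))
    · refine le_trans (le_of_eq ?_) (gg_S (0, 0) (hge2 _)).2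
      simp [ha, hd, ENNReal.ofReal]
    · refine le_trans (le_of_eq ?_) (gg_S (0, 1) (hge2 _)).2
      simp [ha, hd, ENNReal.ofReal]
    · refine ne_top_of_le_ne_top ?_ (ENNReal.tsum_le_tsum fun p =>
        ENNReal.rpow_le_rpow (hS p) ht.le)
      simp only [ENNReal.mul_rpow_of_nonneg _ _ ht.le, ← ENNReal.rpow_natCast, ← ENNReal.rpow_mul,
        mul_comm _ t]
      simp only [ENNReal.rpow_mul, ENNReal.rpow_natCast]
      rw [geo]
      refine ENNReal.mul_ne_top (ENNReal.mul_ne_top (by simp)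
        (ENNReal.rpow_ne_top_of_nonneg ht.le (by simp))) (ENNReal.inv_ne_top.2 ?_)
      exact (tsub_pos_of_lt (ENNReal.rpow_lt_one (by rw [ENNReal.ofReal_lt_one]; norm_num) ht)).ne'
  · rw [hF, hG]
    have h1 := lower (gg a) (0, 0) (0, 1) D hD (fun z => by simp [gg, ha, hd])
      (fun z => by simp [gg, ha, hd, sub_eq_add_neg])
    have h2 := upper (s := ff a) (fun p => 1 / 3 * (1 / 1000 ^ 2) ^ p.1) (1 / 3) (by norm_num)
      (fun p => mul_le_of_le_one_right' (pow_le_one₀ (by positivity)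
        (by rw [← NNReal.coe_le_coe]; norm_num)))
      (fun p => ((ff_cifs hge2 hs).1 p).1)
      (fun p => ff_lip hge2 p _ (by
        rw [← sq_abs, hab]
        push_cast
        have h1 := p1 p.1
        have e : ((1 : ℝ) / 1000 ^ 2) ^ p.1 * (1000 ^ p.1) ^ 2 = 1 := by
          rw [← pow_mul, mul_comm p.1 2, pow_mul, ← mul_pow]; norm_num
        have h2 : (0 : ℝ) ≤ (1 / 1000 ^ 2) ^ p.1 := by positivity
        have h3 : 3 * (1000 ^ p.1) ^ 2 ≤ (D * 1000 ^ p.1) ^ 2 - 1 := by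
          have : 4 ≤ D ^ 2 := by nlinarith
          rw [mul_pow]; nlinarith [one_le_pow₀ (n := 2) h1]
        nlinarith)) (13 / 20) (by
      have c1 : ((1 / 3 : ℝ≥0) : ℝ≥0∞) ^ ((13 / 20 : ℝ≥0) : ℝ) ≤ (49 / 100 : ℝ≥0) := by
        rw [← ENNReal.coe_rpow_of_nonneg _ (by positivity), ENNReal.coe_le_coe,
          ← pow_le_pow_iff_left₀ (n := 20) (by positivity) (by positivity) (by norm_num),
          ← NNReal.rpow_natCast, ← NNReal.rpow_mul]
        norm_num
        rw [← NNReal.coe_le_coe]; norm_num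
      have c2 : ((1 / 1000 ^ 2 : ℝ≥0) : ℝ≥0∞) ^ ((13 / 20 : ℝ≥0) : ℝ) ≤ (1 / 100 : ℝ≥0) := by
        rw [← ENNReal.coe_rpow_of_nonneg _ (by positivity), ENNReal.coe_le_coe,
          ← pow_le_pow_iff_left₀ (n := 20) (by positivity) (by positivity) (by norm_num),
          ← NNReal.rpow_natCast, ← NNReal.rpow_mul]
        norm_num
        rw [← NNReal.coe_le_coe]; norm_num
      calc _ ≤ ∑' p : ℕ × Fin 2, ((49 / 100 : ℝ≥0) : ℝ≥0∞) * ((1 / 100 : ℝ≥0) : ℝ≥0∞) ^ p.1 := by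
            refine ENNReal.tsum_le_tsum fun p => ?_
            rw [ENNReal.coe_mul, ENNReal.mul_rpow_of_nonneg _ _ (by positivity), ENNReal.coe_pow,
              ← ENNReal.rpow_natCast, ← ENNReal.rpow_mul, mul_comm (p.1 : ℝ), ENNReal.rpow_mul,
              ENNReal.rpow_natCast]
            gcongr
        _ ≤ 1 := by
            rw [geo, ← ENNReal.coe_one, ← ENNReal.coe_sub, ← ENNReal.coe_inv (by
              rw [← NNReal.coe_ne_zero, NNReal.coe_sub (by rw [← NNReal.coe_le_coe]; norm_num)]; norm_num),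
              ← ENNReal.coe_ofNat, ← ENNReal.coe_mul, ← ENNReal.coe_mul, ENNReal.coe_le_coe,
              ← NNReal.coe_le_coe]
            push_cast
            rw [NNReal.coe_sub (by rw [← NNReal.coe_le_coe]; norm_num)]
            norm_num)
    refine h2.trans_lt (lt_of_lt_of_le ?_ h1)
    rw [← ENNReal.ofReal_coe_nnreal, ENNReal.ofReal_lt_ofReal_iff (by norm_num)]
    norm_num

end Pool.Agent.H.MP_c785a0_an
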